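import Mathlib
import Pool.Agent.TH785.SD.Zfc
import Pool.Agent.TH785.SD.Forces2

/-!
# Consistently, there is a first countable, locally countable Dowker space of size aleph_1
# and there is no Lusin set

Some notion of forcing `P` forces, below every condition, the combinatorial statement `Comb W`
about a ground model well-order `W` with countable initial segments: `W` is uncountable, there is a
(coherent) Souslin tree with levels indexed by `W`, and any family of reals indexed by `W` is
contained in a meager set.  In ZFC this statement implies that there is a first countable, locally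
countable Dowker space of size `ℵ₁` and that there is no Lusin set.

A sentence of the forcing language is the set of the conditions which force it; a name for a
subset of a ground model set `Y` is a map sending `y` to a set of conditions, and `meets N` says
that the generic filter meets `N`.  `CombN P W` is the literal translation of `Comb W`.
-/

set_option autoImplicit false

namespace Pool.Agent.Results.MP_cba831_lc.DowkerWithoutLusin

open Pool.Agent.TH785.SD Cardinal

/-- **Main theorem.** -/
theorem result :
    (∃ (P : Type) (_ : Preorder P) (W : Type) (_ : LinearOrder W) (_ : WellFoundedLT W),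
      Nonempty P ∧ (∀ a : W, (Set.Iio a).Countable) ∧ ∀ p : P, p ∈ CombN P W) ∧
    ∀ (W : Type) (_ : LinearOrder W) (_ : WellFoundedLT W), (∀ a : W, (Set.Iio a).Countable) →
      Comb W →
      (∃ (X : Type) (_ : TopologicalSpace X), #X = ℵ₁ ∧ T2Space X ∧ NormalSpace X ∧
        ¬ CountablyParacompact X ∧ FirstCountableTopology X ∧
        ∀ x : X, ∃ U : Set X, IsOpen U ∧ U.Countable ∧ x ∈ U) ∧
      ¬ ∃ L : Set ℝ, IsLusin L := by
  refine ⟨?_, fun W _ _ hc h => main hc h⟩
  let W : Type := (ℵ₁ : Cardinal.{0}).ord.ToType
  have hW : #W = ℵ₁ := by simp [W]
  have hc : ∀ a : W, (Set.Iio a).Countable := fun a =>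
    (Cardinal.countable_iff_lt_aleph_one _).2 (Cardinal.mk_Iio_ord_toType a)
  have hu : ¬ (Set.univ : Set W).Countable := by
    rw [Cardinal.countable_iff_lt_aleph_one, Cardinal.mk_univ, hW]
    exact lt_irrefl _
  have hne : Nonempty W := by
    by_contra hcon
    rw [not_nonempty_iff] at hcon
    exact hu Set.countable_univ
  obtain ⟨a⟩ := hne
  refine ⟨FF W, inferInstance, W, inferInstance, inferInstance, ?_, hc,
    fun p => forces_comb ⟨hc, hu⟩ p⟩
  exact ⟨(⟨a, fun _ _ => 0, fun _ _ _ _ => by simp⟩, ⟨Set.univ, MeasurableSet.univ, by simp⟩)⟩

end Pool.Agent.Results.MP_cba831_lc.DowkerWithoutLusin
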